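import Mathlib

/-!
# MP_e82249_co : joins with large cliques are enumeratively chromatic-choosable
-/

namespace Pool.Agent.Results.MP_e82249_co.JoinEnum

open Finset

/-- `P(G, m)`: the number of proper colourings `V → {0, …, m - 1}`. -/
noncomputable def numCol {V : Type*} (G : SimpleGraph V) (m : ℕ) : ℕ :=
  Nat.card {f : V → Fin m // ∀ u v, G.Adj u v → f u ≠ f v}

/-- `P(G, L)`: the number of proper `L`-colourings. -/
noncomputable def numListCol {V : Type*} (G : SimpleGraph V) (L : V → Finset ℕ) : ℕ :=
  Nat.card {f : V → ℕ // (∀ v, f v ∈ L v) ∧ ∀ u v, G.Adj u v → f u ≠ f v}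

/-- The list color function `P_ℓ(G, m)`: the minimum of `P(G, L)` over all `m`-assignments `L`. -/
noncomputable def listFn {V : Type*} (G : SimpleGraph V) (m : ℕ) : ℕ :=
  sInf {N | ∃ L : V → Finset ℕ, (∀ v, (L v).card = m) ∧ numListCol G L = N}

/-- `G` is enumeratively chromatic-choosable. -/
def EnumChoosable {V : Type*} (G : SimpleGraph V) : Prop :=
  ∀ m : ℕ, G.chromaticNumber ≤ (m : ℕ∞) → listFn G m = numCol G m

/-- The join `G ∨ H`. -/
def join {V W : Type*} (G : SimpleGraph V) (H : SimpleGraph W) : SimpleGraph (V ⊕ W) where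
  Adj x y := match x, y with
    | Sum.inl u, Sum.inl v => G.Adj u v
    | Sum.inr u, Sum.inr v => H.Adj u v
    | _, _ => True
  symm := ⟨by
    rintro (a | a) (b | b) h
    · exact SimpleGraph.Adj.symm (G := G) h
    · trivial
    · trivial
    · exact SimpleGraph.Adj.symm (G := H) h⟩
  loopless := ⟨by
    rintro (a | a) h
    · exact G.loopless.irrefl _ h
    · exact H.loopless.irrefl _ h⟩

/-! ### Finset versions -/

section
open scoped Classical

variable {V : Type*} [Fintype V]

/-- the finset of `L`-colourings -/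
noncomputable def cs (G : SimpleGraph V) (L : V → Finset ℕ) : Finset (V → ℕ) :=
  (Fintype.piFinset L).filter (fun f => ∀ u v, G.Adj u v → f u ≠ f v)

/-- number of `L`-colourings, as a `Finset.card` -/
noncomputable def cl (G : SimpleGraph V) (L : V → Finset ℕ) : ℕ := (cs G L).card

theorem mem_cs (G : SimpleGraph V) (L : V → Finset ℕ) (f : V → ℕ) :
    f ∈ cs G L ↔ (∀ v, f v ∈ L v) ∧ ∀ u v, G.Adj u v → f u ≠ f v := by
  unfold cs
  rw [Finset.mem_filter, Fintype.mem_piFinset]

/-- the finset of proper colourings with `Fin j` -/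
noncomputable def pc (G : SimpleGraph V) (j : ℕ) : Finset (V → Fin j) :=
  univ.filter (fun f => ∀ u v, G.Adj u v → f u ≠ f v)

theorem numListCol_eq (G : SimpleGraph V) (L : V → Finset ℕ) : numListCol G L = cl G L := by
  unfold numListCol cl
  exact Nat.subtype_card _ (fun f => mem_cs G L f)

theorem numCol_eq (G : SimpleGraph V) (m : ℕ) : numCol G m = (pc G m).card := by
  unfold numCol pc
  exact Nat.subtype_card _ (fun f => by simp)

/-- coherent injections give many list colourings -/
theorem le_of_coherent (G : SimpleGraph V) (L : V → Finset ℕ) (j : ℕ) (t : V → Fin j → ℕ)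
    (ht : ∀ v i, t v i ∈ L v) (hc : ∀ u v i k, t u i = t v k → i = k) :
    numCol G j ≤ cl G L := by
  rw [numCol_eq]
  unfold cl
  apply Finset.card_le_card_of_injOn (fun f v => t v (f v))
  · intro f hf
    simp only [pc, Finset.coe_filter, Finset.mem_univ, true_and, Set.mem_ofPred_eq] at hf
    rw [Finset.mem_coe, mem_cs]
    exact ⟨fun v => ht v _, fun u v huv h => hf u v huv (hc _ _ _ _ h)⟩
  · intro f _ g _ hfg
    funext v
    exact hc v v _ _ (congrFun hfg v)

theorem succ_le_of_coherent (G : SimpleGraph V) (L : V → Finset ℕ) (j : ℕ) (t : V → Fin j → ℕ)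
    (ht : ∀ v i, t v i ∈ L v) (hc : ∀ u v i k, t u i = t v k → i = k) (w : V) (c : ℕ)
    (hw : c ∈ L w) (hne : ∀ v i, t v i ≠ c) (hcol : G.Colorable j) :
    numCol G j + 1 ≤ cl G L := by
  rw [numCol_eq]
  unfold cl
  obtain ⟨C⟩ := hcol
  set f0 : V → ℕ := fun v => if v = w then c else t v (C v) with hf0
  have hnot : f0 ∉ (pc G j).image (fun f v => t v (f v)) := by
    intro h
    rw [Finset.mem_image] at h
    obtain ⟨f, _, hf⟩ := h
    have := congrFun hf w
    simp only [hf0, if_true] at this
    exact hne _ _ this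
  have hinj : ((pc G j).image (fun f v => t v (f v))).card = (pc G j).card := by
    apply Finset.card_image_of_injOn
    intro f _ g _ hfg
    funext v
    exact hc v v _ _ (congrFun hfg v)
  rw [← hinj, ← Finset.card_insert_of_notMem hnot]
  apply Finset.card_le_card
  intro g hg
  rw [Finset.mem_insert, Finset.mem_image] at hg
  rw [mem_cs]
  rcases hg with rfl | ⟨f, hf, rfl⟩
  · constructor
    · intro v
      simp only [hf0]
      split_ifs with h
      · rw [h]; exact hw
      · exact ht _ _
    · intro u v huv h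
      simp only [hf0] at h
      split_ifs at h with h1 h2 h2
      · exact huv.ne (h1.trans h2.symm)
      · exact hne _ _ h.symm
      · exact hne _ _ h
      · exact C.valid huv (hc _ _ _ _ h)
  · simp only [pc, Finset.mem_filter, Finset.mem_univ, true_and] at hf
    exact ⟨fun v => ht v _, fun u v huv h => hf u v huv (hc _ _ _ _ h)⟩

/-- constant lists -/
theorem cl_const (G : SimpleGraph V) (T : Finset ℕ) : cl G (fun _ => T) = numCol G T.card := by
  rw [numCol_eq]
  unfold cl pc
  let e : Fin T.card ≃ T := T.equivFin.symm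
  symm
  apply Finset.card_bij (fun f _ v => ((e (f v) : T) : ℕ))
  · intro f hf
    rw [Finset.mem_filter] at hf
    rw [mem_cs]
    refine ⟨fun v => (e (f v)).2, fun u v huv h => hf.2 u v huv ?_⟩
    exact e.injective (Subtype.ext h)
  · intro f _ g _ hfg
    funext v
    exact e.injective (Subtype.ext (congrFun hfg v))
  · intro g hg
    rw [mem_cs] at hg
    refine ⟨fun v => e.symm ⟨g v, hg.1 v⟩, ?_, ?_⟩
    · rw [Finset.mem_filter]
      refine ⟨Finset.mem_univ _, fun u v huv h => hg.2 u v huv ?_⟩
      have := e.symm.injective h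
      exact congrArg Subtype.val this
    · funext v
      simp

theorem cl_mono (G : SimpleGraph V) (L L' : V → Finset ℕ) (h : ∀ v, L v ⊆ L' v) :
    cl G L ≤ cl G L' := by
  unfold cl
  apply Finset.card_le_card
  intro f hf
  rw [mem_cs] at hf ⊢
  exact ⟨fun v => h v (hf.1 v), hf.2⟩

/-! ### The recursion over the clique -/

/-- `cnt G L l S`: number of ways to choose colours for clique vertices with lists `l` (distinct
and outside `S`) and then to colour `G`. -/
noncomputable def cnt (G : SimpleGraph V) (L : V → Finset ℕ) : List (Finset ℕ) → Finset ℕ → ℕ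
  | [], S => cl G (fun v => L v \ S)
  | A :: l, S => ∑ c ∈ A \ S, cnt G L l (insert c S)

/-- The supermartingale estimate. -/
theorem cnt_lower (G : SimpleGraph V) (L : V → Finset ℕ) (j : ℕ) (hj : 1 ≤ j)
    {ι : Type*} (𝒳 : Finset ι) (I : ι → Finset ℕ) (v0 p : ℕ)
    (hbase : ∀ S : Finset ℕ, S.card = p → (∀ X ∈ 𝒳, j ≤ (I X \ S).card) →
      v0 ≤ cl G (fun v => L v \ S)) :
    ∀ (l : List (Finset ℕ)) (S : Finset ℕ), S.card + l.length = p →
      (∀ A ∈ l, p + j ≤ A.card) →
      (v0 : ℝ) * ((l.length + j).descFactorial l.length : ℕ) *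
        (1 - ∑ X ∈ 𝒳, (j : ℝ) * ((l.length + j - (I X \ S).card : ℕ) : ℝ) / (l.length + j : ℕ)) ≤
        cnt G L l S := by
  intro l
  induction l with
  | nil =>
    intro S hS _
    simp only [List.length_nil, Nat.zero_add, Nat.descFactorial_zero, Nat.cast_one, mul_one, cnt]
    have hjpos : (0 : ℝ) < (j : ℝ) := by exact_mod_cast hj
    by_cases hgood : ∀ X ∈ 𝒳, j ≤ (I X \ S).card
    · have h1 := hbase S (by simpa using hS) hgood
      have h0 : ∑ X ∈ 𝒳, (j : ℝ) * ((j - (I X \ S).card : ℕ) : ℝ) / (j : ℝ) = 0 := by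
        apply Finset.sum_eq_zero
        intro X hX
        have : j - (I X \ S).card = 0 := Nat.sub_eq_zero_of_le (hgood X hX)
        rw [this]
        simp
      rw [h0, sub_zero, mul_one]
      exact_mod_cast h1
    · push Not at hgood
      obtain ⟨X, hX, hlt⟩ := hgood
      have h1 : (1 : ℝ) ≤ ∑ X ∈ 𝒳, (j : ℝ) * ((j - (I X \ S).card : ℕ) : ℝ) / (j : ℝ) := by
        have hle : (j : ℝ) * ((j - (I X \ S).card : ℕ) : ℝ) / (j : ℝ) ≤
            ∑ X ∈ 𝒳, (j : ℝ) * ((j - (I X \ S).card : ℕ) : ℝ) / (j : ℝ) :=
          Finset.single_le_sum (f := fun X => (j : ℝ) * ((j - (I X \ S).card : ℕ) : ℝ) / (j : ℝ))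
            (fun Y _ => by positivity) hX
        have h2 : (1 : ℝ) ≤ ((j - (I X \ S).card : ℕ) : ℝ) := by
          exact_mod_cast (by omega : 1 ≤ j - (I X \ S).card)
        have h3 : (j : ℝ) * ((j - (I X \ S).card : ℕ) : ℝ) / (j : ℝ) =
            ((j - (I X \ S).card : ℕ) : ℝ) := by field_simp
        linarith
      have h2 : (v0 : ℝ) * (1 - ∑ X ∈ 𝒳, (j : ℝ) * ((j - (I X \ S).card : ℕ) : ℝ) / (j : ℝ)) ≤ 0 :=
        mul_nonpos_of_nonneg_of_nonpos (Nat.cast_nonneg _) (by linarith)
      exact h2.trans (Nat.cast_nonneg _)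
  | cons A l ih =>
    intro S hS hA
    simp only [List.length_cons] at hS ⊢
    set r' := l.length + j with hr'
    have hr1 : l.length + 1 + j = r' + 1 := by omega
    rw [hr1, Nat.succ_descFactorial_succ]
    have hr'pos : 1 ≤ r' := by omega
    set φ : ℝ := 1 - ∑ X ∈ 𝒳, (j : ℝ) * ((r' + 1 - (I X \ S).card : ℕ) : ℝ) / ((r' + 1 : ℕ) : ℝ)
      with hφ
    by_cases hφ0 : φ < 0
    · have h2 : (v0 : ℝ) * (((r' + 1) * r'.descFactorial l.length : ℕ) : ℝ) * φ ≤ 0 :=
        mul_nonpos_of_nonneg_of_nonpos (by positivity) hφ0.le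
      exact h2.trans (Nat.cast_nonneg _)
    push Not at hφ0
    simp only [cnt]
    rw [Nat.cast_sum]
    have hAS : r' + 1 ≤ (A \ S).card := by
      have h1 := hA A (by simp)
      have h2 := Finset.le_card_sdiff S A
      omega
    have hstep : ∀ c ∈ A \ S, (v0 : ℝ) * (r'.descFactorial l.length : ℕ) *
        (1 - ∑ X ∈ 𝒳, (j : ℝ) * ((r' - (I X \ insert c S).card : ℕ) : ℝ) / (r' : ℕ)) ≤
        (cnt G L l (insert c S) : ℝ) := by
      intro c hc
      have hcS : c ∉ S := (Finset.mem_sdiff.1 hc).2
      apply ih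
      · rw [Finset.card_insert_of_notMem hcS]
        omega
      · intro B hB
        exact hA B (by simp [hB])
    refine le_trans ?_ (Finset.sum_le_sum hstep)
    rw [← Finset.mul_sum]
    have hr'0 : (0 : ℝ) < (r' : ℝ) := by exact_mod_cast hr'pos
    -- the key estimate for one X
    have hkey : ∀ X ∈ 𝒳, ((r' + 1 : ℕ) : ℝ) *
        ∑ c ∈ A \ S, ((r' - (I X \ insert c S).card : ℕ) : ℝ) ≤
        ((A \ S).card : ℝ) * (r' : ℝ) * ((r' + 1 - (I X \ S).card : ℕ) : ℝ) := by
      intro X _
      set q := (I X \ S).card with hq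
      set s := (A \ S).card with hs
      have hcin : ∀ c ∈ A \ S, c ∈ I X → (I X \ insert c S).card + 1 = q := by
        intro c hc hcI
        have hcS : c ∉ S := (Finset.mem_sdiff.1 hc).2
        have : I X \ insert c S = (I X \ S).erase c := by
          ext y
          simp only [Finset.mem_sdiff, Finset.mem_insert, Finset.mem_erase]
          tauto
        rw [this, Finset.card_erase_add_one]
        exact Finset.mem_sdiff.2 ⟨hcI, hcS⟩
      have hcout : ∀ c ∈ A \ S, c ∉ I X → (I X \ insert c S).card = q := by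
        intro c hc hcI
        have : I X \ insert c S = I X \ S := by
          ext y
          simp only [Finset.mem_sdiff, Finset.mem_insert]
          constructor
          · rintro ⟨h1, h2⟩
            exact ⟨h1, fun h => h2 (Or.inr h)⟩
          · rintro ⟨h1, h2⟩
            refine ⟨h1, ?_⟩
            rintro (rfl | h)
            · exact hcI h1
            · exact h2 h
        rw [this]
      by_cases hq' : r' + 1 ≤ q
      · have h0 : ∑ c ∈ A \ S, ((r' - (I X \ insert c S).card : ℕ) : ℝ) = 0 := by
          apply Finset.sum_eq_zero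
          intro c hc
          have : r' - (I X \ insert c S).card = 0 := by
            by_cases hcI : c ∈ I X
            · have := hcin c hc hcI
              omega
            · have := hcout c hc hcI
              omega
          rw [this]
          simp
        rw [h0, mul_zero]
        positivity
      · push Not at hq'
        -- number of c in I X
        set a := ((A \ S).filter (fun c => c ∈ I X)).card with ha
        have haq : a ≤ q := by
          apply Finset.card_le_card
          intro c hc
          rw [Finset.mem_filter, Finset.mem_sdiff] at hc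
          exact Finset.mem_sdiff.2 ⟨hc.2, hc.1.2⟩
        have hsum : ∑ c ∈ A \ S, (r' - (I X \ insert c S).card) + q * s = r' * s + a := by
          have h1 : ∀ c ∈ A \ S, (r' - (I X \ insert c S).card) + q =
              r' + (if c ∈ I X then 1 else 0) := by
            intro c hc
            by_cases hcI : c ∈ I X
            · have := hcin c hc hcI
              simp only [hcI, if_true]
              omega
            · have := hcout c hc hcI
              simp only [hcI, if_false]
              omega
          have h2 := Finset.sum_congr rfl h1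
          rw [Finset.sum_add_distrib, Finset.sum_add_distrib, Finset.sum_const, Finset.sum_const,
            smul_eq_mul, smul_eq_mul, ← Finset.card_filter] at h2
          rw [← hs, ← ha] at h2
          linarith
        have hsumR : ∑ c ∈ A \ S, ((r' - (I X \ insert c S).card : ℕ) : ℝ) + q * s = r' * s + a := by
          exact_mod_cast hsum
        have hg : ((r' + 1 - q : ℕ) : ℝ) = (r' : ℝ) + 1 - q := by
          rw [Nat.cast_sub (by omega)]
          push_cast
          ring
        rw [hg]
        have haqR : (a : ℝ) ≤ q := by exact_mod_cast haq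
        have hsR : (r' : ℝ) + 1 ≤ s := by exact_mod_cast hAS
        have hqR : (q : ℝ) + 1 ≤ r' + 1 := by exact_mod_cast hq'
        have hS' : ∑ c ∈ A \ S, ((r' - (I X \ insert c S).card : ℕ) : ℝ) = r' * s + a - q * s := by
          linarith
        rw [hS']
        push_cast
        have hq0 : (0 : ℝ) ≤ q := Nat.cast_nonneg _
        nlinarith [mul_nonneg (sub_nonneg.2 hsR) hq0, mul_nonneg hr'0.le (sub_nonneg.2 haqR)]
    -- sum over X
    have htot : ∑ c ∈ A \ S, (1 - ∑ X ∈ 𝒳, (j : ℝ) * ((r' - (I X \ insert c S).card : ℕ) : ℝ) /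
        (r' : ℕ)) ≥ ((A \ S).card : ℝ) * φ := by
      rw [Finset.sum_sub_distrib, Finset.sum_const, nsmul_eq_mul, mul_one, Finset.sum_comm, hφ,
        mul_sub, mul_one, Finset.mul_sum]
      apply sub_le_sub_left
      apply Finset.sum_le_sum
      intro X hX
      have h := hkey X hX
      rw [← Finset.sum_div, ← Finset.mul_sum]
      have hr1' : (0 : ℝ) < ((r' + 1 : ℕ) : ℝ) := by positivity
      rw [div_le_iff₀ hr'0]
      rw [show ((A \ S).card : ℝ) * ((j : ℝ) * ((r' + 1 - (I X \ S).card : ℕ) : ℝ) /
        ((r' + 1 : ℕ) : ℝ)) * (r' : ℝ) = (j : ℝ) * (((A \ S).card : ℝ) * (r' : ℝ) *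
        ((r' + 1 - (I X \ S).card : ℕ) : ℝ)) / ((r' + 1 : ℕ) : ℝ) by ring]
      rw [le_div_iff₀ hr1']
      have hj0 : (0 : ℝ) ≤ j := Nat.cast_nonneg _
      calc ((j : ℝ) * ∑ c ∈ A \ S, ((r' - (I X \ insert c S).card : ℕ) : ℝ)) * ((r' + 1 : ℕ) : ℝ)
          = (j : ℝ) * (((r' + 1 : ℕ) : ℝ) *
            ∑ c ∈ A \ S, ((r' - (I X \ insert c S).card : ℕ) : ℝ)) := by ring
        _ ≤ _ := mul_le_mul_of_nonneg_left h hj0
    have hsR : ((r' + 1 : ℕ) : ℝ) ≤ ((A \ S).card : ℝ) := by exact_mod_cast hAS
    have hv : (0 : ℝ) ≤ (v0 : ℝ) * (r'.descFactorial l.length : ℕ) := by positivity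
    calc (v0 : ℝ) * (((r' + 1) * r'.descFactorial l.length : ℕ) : ℝ) * φ
        = (v0 : ℝ) * (r'.descFactorial l.length : ℕ) * (((r' + 1 : ℕ) : ℝ) * φ) := by
          push_cast; ring
      _ ≤ (v0 : ℝ) * (r'.descFactorial l.length : ℕ) * (((A \ S).card : ℝ) * φ) :=
          mul_le_mul_of_nonneg_left (mul_le_mul_of_nonneg_right hsR hφ0) hv
      _ ≤ _ := mul_le_mul_of_nonneg_left htot hv

/-! ### Counting colourings of the join -/

/-- colourings of the join as the recursion -/
theorem cl_join (G : SimpleGraph V) (L : V → Finset ℕ) :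
    ∀ (p : ℕ) (LU : Fin p → Finset ℕ) (S : Finset ℕ),
      cl (join G (⊤ : SimpleGraph (Fin p))) (fun x => Sum.elim L LU x \ S) =
        cnt G L (List.ofFn LU) S := by
  intro p
  induction p with
  | zero =>
    intro LU S
    simp only [List.ofFn_zero, cnt]
    unfold cl
    apply Finset.card_nbij' (fun f v => f (Sum.inl v))
      (fun g x => match x with | Sum.inl v => g v | Sum.inr i => i.elim0)
    · intro f hf
      rw [Finset.mem_coe, mem_cs] at hf ⊢
      exact ⟨fun v => hf.1 (Sum.inl v), fun u v huv => hf.2 (Sum.inl u) (Sum.inl v) huv⟩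
    · intro g hg
      rw [Finset.mem_coe, mem_cs] at hg ⊢
      constructor
      · rintro (v | i)
        · exact hg.1 v
        · exact i.elim0
      · rintro (u | i) (v | k) h
        · exact hg.2 u v h
        · exact k.elim0
        · exact i.elim0
        · exact i.elim0
    · intro f _
      funext x
      rcases x with v | i
      · rfl
      · exact i.elim0
    · intro g _
      rfl
  | succ p ih =>
    intro LU S
    rw [List.ofFn_succ]
    simp only [cnt]
    unfold cl
    rw [Finset.card_eq_sum_card_fiberwise (f := fun g => g (Sum.inr 0)) (t := LU 0 \ S)]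
    · apply Finset.sum_congr rfl
      intro c hc
      rw [← ih (fun i => LU i.succ) (insert c S)]
      unfold cl
      apply Finset.card_nbij'
        (fun f x => match x with | Sum.inl v => f (Sum.inl v) | Sum.inr i => f (Sum.inr i.succ))
        (fun g x => match x with
          | Sum.inl v => g (Sum.inl v)
          | Sum.inr i => Fin.cases (motive := fun _ => ℕ) c (fun i => g (Sum.inr i)) i)
      · intro f hf
        rw [Finset.mem_coe, Finset.mem_filter, mem_cs] at hf
        rw [Finset.mem_coe, mem_cs]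
        obtain ⟨⟨h1, h2⟩, h3⟩ := hf
        constructor
        · rintro (v | i)
          · have h4 := h1 (Sum.inl v)
            have h5 := h2 (Sum.inl v) (Sum.inr 0) trivial
            simp only [Sum.elim_inl, Finset.mem_sdiff, Finset.mem_insert] at h4 ⊢
            refine ⟨h4.1, ?_⟩
            rintro (h | h)
            · exact h5 (h.trans h3.symm)
            · exact h4.2 h
          · have h4 := h1 (Sum.inr i.succ)
            have h5 := h2 (Sum.inr i.succ) (Sum.inr 0) (Fin.succ_ne_zero i)
            simp only [Sum.elim_inr, Finset.mem_sdiff, Finset.mem_insert] at h4 ⊢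
            refine ⟨h4.1, ?_⟩
            rintro (h | h)
            · exact h5 (h.trans h3.symm)
            · exact h4.2 h
        · rintro (u | i) (v | k) h
          · exact h2 (Sum.inl u) (Sum.inl v) h
          · exact h2 (Sum.inl u) (Sum.inr k.succ) trivial
          · exact h2 (Sum.inr i.succ) (Sum.inl v) trivial
          · exact h2 (Sum.inr i.succ) (Sum.inr k.succ) (fun h' => h (Fin.succ_injective _ h'))
      · intro g hg
        rw [Finset.mem_coe, mem_cs] at hg
        rw [Finset.mem_coe, Finset.mem_filter, mem_cs]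
        obtain ⟨h1, h2⟩ := hg
        have hcS := Finset.mem_sdiff.1 hc
        refine ⟨⟨?_, ?_⟩, rfl⟩
        · rintro (v | i)
          · have h4 := h1 (Sum.inl v)
            simp only [Sum.elim_inl, Finset.mem_sdiff, Finset.mem_insert] at h4 ⊢
            exact ⟨h4.1, fun h => h4.2 (Or.inr h)⟩
          · refine Fin.cases ?_ ?_ i
            · exact hc
            · intro k
              have h4 := h1 (Sum.inr k)
              simp only [Sum.elim_inr, Finset.mem_sdiff, Finset.mem_insert] at h4
              show g (Sum.inr k) ∈ LU k.succ \ S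
              exact Finset.mem_sdiff.2 ⟨h4.1, fun h => h4.2 (Or.inr h)⟩
        · have hne : ∀ x, g x ≠ c := by
            intro x
            have h4 := h1 x
            rw [Finset.mem_sdiff] at h4
            intro h
            exact h4.2 (h ▸ Finset.mem_insert_self _ _)
          rintro (u | i) (v | k) h
          · exact h2 (Sum.inl u) (Sum.inl v) h
          · refine Fin.cases ?_ ?_ k
            · exact hne _
            · intro k
              exact h2 (Sum.inl u) (Sum.inr k) trivial
          · refine Fin.cases ?_ ?_ i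
            · exact (hne _).symm
            · intro i
              exact h2 (Sum.inr i) (Sum.inl v) trivial
          · have h' : i ≠ k := h
            revert h'
            refine Fin.cases ?_ ?_ i
            · refine Fin.cases ?_ ?_ k
              · intro h'; exact absurd rfl h'
              · intro k _; exact (hne _).symm
            · intro i
              refine Fin.cases ?_ ?_ k
              · intro _; exact hne _
              · intro k h'
                exact h2 (Sum.inr i) (Sum.inr k) (fun h'' => h' (congrArg Fin.succ h''))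
      · intro f hf
        rw [Finset.mem_coe, Finset.mem_filter] at hf
        funext x
        rcases x with v | i
        · rfl
        · refine Fin.cases ?_ ?_ i
          · exact hf.2.symm
          · intro k; rfl
      · intro g _
        funext x
        rcases x with v | i
        · rfl
        · rfl
    · intro f hf
      rw [Finset.mem_coe, mem_cs] at hf
      exact hf.1 (Sum.inr 0)

/-- constant lists -/
theorem cnt_const (G : SimpleGraph V) (T : Finset ℕ) (j : ℕ) :
    ∀ (k : ℕ) (S : Finset ℕ), S ⊆ T → S.card + k + j = T.card →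
      cnt G (fun _ => T) (List.replicate k T) S = (k + j).descFactorial k * numCol G j := by
  intro k
  induction k with
  | zero =>
    intro S hS hc
    simp only [List.replicate_zero, cnt, Nat.descFactorial_zero, one_mul]
    rw [cl_const]
    congr 1
    rw [Finset.card_sdiff_of_subset hS]
    omega
  | succ k ih =>
    intro S hS hc
    rw [List.replicate_succ]
    simp only [cnt]
    have hcard : (T \ S).card = k + 1 + j := by
      rw [Finset.card_sdiff_of_subset hS]
      omega
    have : ∀ c ∈ T \ S, cnt G (fun _ => T) (List.replicate k T) (insert c S) =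
        (k + j).descFactorial k * numCol G j := by
      intro c hc'
      rw [Finset.mem_sdiff] at hc'
      apply ih
      · exact Finset.insert_subset hc'.1 hS
      · rw [Finset.card_insert_of_notMem hc'.2]
        omega
    rw [Finset.sum_congr rfl this, Finset.sum_const, hcard, smul_eq_mul,
      show k + 1 + j = (k + j) + 1 by omega, Nat.succ_descFactorial_succ, mul_assoc]

theorem numCol_join (G : SimpleGraph V) (p j : ℕ) :
    numCol (join G (⊤ : SimpleGraph (Fin p))) (p + j) =
      (p + j).descFactorial p * numCol G j := by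
  have h1 : numCol (join G (⊤ : SimpleGraph (Fin p))) (p + j) =
      cl (join G (⊤ : SimpleGraph (Fin p))) (fun _ => range (p + j)) := by
    rw [cl_const, card_range]
  rw [h1]
  have h2 : (fun _ : V ⊕ Fin p => range (p + j)) =
      (fun x => Sum.elim (fun _ : V => range (p + j)) (fun _ : Fin p => range (p + j)) x \ ∅) := by
    funext x
    rcases x with v | i <;> simp
  rw [h2, cl_join]
  have h3 : List.ofFn (fun _ : Fin p => range (p + j)) = List.replicate p (range (p + j)) := by
    simp [List.ofFn_const]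
  rw [h3, cnt_const G (range (p + j)) j p ∅ (by simp) (by simp)]

/-! ### Existence of coherent injections -/

/-- `Hall`: systems of distinct representatives from large sets. -/
theorem exists_sdr {ι : Type*} [Fintype ι] (A : ι → Finset ℕ)
    (hA : ∀ i, Fintype.card ι ≤ (A i).card) :
    ∃ f : ι → ℕ, Function.Injective f ∧ ∀ i, f i ∈ A i := by
  rw [← Finset.all_card_le_biUnion_card_iff_exists_injective]
  intro s
  rcases s.eq_empty_or_nonempty with rfl | ⟨i, hi⟩
  · simp
  · calc s.card ≤ Fintype.card ι := Finset.card_le_univ s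
      _ ≤ (A i).card := hA i
      _ ≤ _ := Finset.card_le_card (Finset.subset_biUnion_of_mem A hi)

/-- The final estimate. -/
theorem final_count (G : SimpleGraph V) (L : V → Finset ℕ) (j p A : ℕ)
    (hA : Fintype.card V * (j + 1) ≤ A) (hcol : G.Colorable j)
    (hL : ∀ v, (L v).card = p + j) (S : Finset ℕ) (hS : S.card = p)
    (hne : ∃ u v : V, L u ≠ L v)
    (hgood : ∀ X : Finset V, X.Nonempty → (∀ v ∈ X, ∀ w ∈ X, (L v \ L w).card < j + 2 * A) →
      ∃ T : Finset ℕ, T.card = j ∧ Disjoint T S ∧ ∀ v ∈ X, T ⊆ L v) :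
    numCol G j + 1 ≤ cl G (fun v => L v \ S) := by
  set X : Finset V := univ.filter (fun v => (S \ L v).card < A) with hX
  -- sizes
  have hsize : ∀ v, (L v \ S).card = j + (S \ L v).card := by
    intro v
    have h1 := Finset.card_sdiff_add_card_inter (L v) S
    have h2 := Finset.card_sdiff_add_card_inter S (L v)
    rw [Finset.inter_comm] at h2
    have := hL v
    omega
  have hclose : ∀ v ∈ X, ∀ w ∈ X, (L v \ L w).card < j + 2 * A := by
    intro v hv w hw
    rw [hX, Finset.mem_filter] at hv hw
    have h1 : (L v \ L w).card + (L v ∩ L w).card = (L v).card :=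
      Finset.card_sdiff_add_card_inter _ _
    have h2 : S ⊆ (S \ L v) ∪ ((S \ L w) ∪ (L v ∩ L w)) := by
      intro c hc
      simp only [Finset.mem_union, Finset.mem_sdiff, Finset.mem_inter]
      tauto
    have h3 := (Finset.card_le_card h2).trans ((Finset.card_union_le _ _).trans
      (Nat.add_le_add_left (Finset.card_union_le _ _) _))
    have := hL v
    omega
  -- colour set T for X
  obtain ⟨T, hTcard, hTS, hTsub⟩ : ∃ T : Finset ℕ, T.card = j ∧ Disjoint T S ∧
      ∀ v ∈ X, T ⊆ L v := by
    rcases X.eq_empty_or_nonempty with h | h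
    · -- any set disjoint from S
      obtain ⟨T, hT1, hT2⟩ := Infinite.exists_superset_card_eq S (S.card + j) (by omega)
      refine ⟨T \ S, ?_, Finset.sdiff_disjoint, ?_⟩
      · rw [Finset.card_sdiff_of_subset hT1]
        omega
      · intro v hv
        rw [h] at hv
        simp at hv
    · exact hgood X h hclose
  let e : Fin j ≃ T := (Finset.equivFinOfCardEq hTcard).symm
  -- private colours for the other vertices
  obtain ⟨g, hginj, hg⟩ := exists_sdr (ι := {v : V // v ∉ X} × Fin (j + 1))
    (fun i => (L i.1.1 \ S) \ T) (by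
      rintro ⟨⟨v, hv⟩, i⟩
      rw [Fintype.card_prod, Fintype.card_fin]
      have h1 : Fintype.card {v : V // v ∉ X} ≤ Fintype.card V := Fintype.card_subtype_le _
      have h2 : A ≤ (S \ L v).card := by
        by_contra h
        push Not at h
        exact hv (by rw [hX, Finset.mem_filter]; exact ⟨Finset.mem_univ _, h⟩)
      have h3 := hsize v
      have h4 := Finset.le_card_sdiff T (L v \ S)
      have h5 : Fintype.card {v : V // v ∉ X} * (j + 1) ≤ Fintype.card V * (j + 1) :=
        Nat.mul_le_mul_right _ h1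
      show _ ≤ ((L v \ S) \ T).card
      omega)
  let t : V → Fin j → ℕ := fun v i =>
    if h : v ∈ X then ((e i : T) : ℕ) else g (⟨v, h⟩, i.castSucc)
  have ht : ∀ v i, t v i ∈ L v \ S := by
    intro v i
    simp only [t]
    split_ifs with h
    · rw [Finset.mem_sdiff]
      exact ⟨hTsub v h (e i).2, Finset.disjoint_left.1 hTS (e i).2⟩
    · exact (Finset.mem_sdiff.1 (hg (⟨v, h⟩, i.castSucc))).1
  have hc : ∀ u v i k, t u i = t v k → i = k := by
    intro u v i k h
    simp only [t] at h
    split_ifs at h with h1 h2 h2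
    · exact e.injective (Subtype.ext h)
    · exfalso
      have := (Finset.mem_sdiff.1 (hg (⟨v, h2⟩, k.castSucc))).2
      exact this (h ▸ (e i).2)
    · exfalso
      have := (Finset.mem_sdiff.1 (hg (⟨u, h1⟩, i.castSucc))).2
      exact this (h ▸ (e k).2)
    · have := hginj h
      rw [Prod.mk.injEq] at this
      exact Fin.castSucc_injective _ this.2
  by_cases hXV : ∀ v, v ∈ X
  · -- all vertices tight
    obtain ⟨u, v, huv⟩ := hne
    -- some colour of S outside some list
    have hex : ∃ w, 1 ≤ (S \ L w).card := by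
      by_contra hcon
      push Not at hcon
      have hsubS : ∀ w, S ⊆ L w := by
        intro w
        have h1 : (S \ L w).card = 0 := by have := hcon w; omega
        rw [Finset.card_eq_zero, Finset.sdiff_eq_empty_iff_subset] at h1
        exact h1
      -- then L w = S ∪ T
      have heq : ∀ w, L w = S ∪ T := by
        intro w
        symm
        apply Finset.eq_of_subset_of_card_le
        · exact Finset.union_subset (hsubS w) (hTsub w (hXV w))
        · rw [Finset.card_union_of_disjoint hTS.symm, hS, hTcard, hL w]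
      exact huv ((heq u).trans (heq v).symm)
    obtain ⟨w, hw⟩ := hex
    have hsz := hsize w
    -- a colour in (L w \ S) \ T
    obtain ⟨c, hcmem⟩ : ((L w \ S) \ T).Nonempty := by
      rw [← Finset.card_pos]
      have := Finset.le_card_sdiff T (L w \ S)
      omega
    rw [Finset.mem_sdiff] at hcmem
    refine succ_le_of_coherent G _ j t ht hc w c hcmem.1 ?_ hcol
    intro v i h
    simp only [t, hXV v, dif_pos] at h
    exact hcmem.2 (h ▸ (e i).2)
  · push Not at hXV
    obtain ⟨w, hw⟩ := hXV
    refine succ_le_of_coherent G _ j t ht hc w (g (⟨w, hw⟩, Fin.last j)) ?_ ?_ hcol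
    · exact (Finset.mem_sdiff.1 (hg (⟨w, hw⟩, Fin.last j))).1
    · intro v i h
      simp only [t] at h
      split_ifs at h with h1
      · have := (Finset.mem_sdiff.1 (hg (⟨w, hw⟩, Fin.last j))).2
        exact this (h ▸ (e i).2)
      · have := hginj h
        rw [Prod.mk.injEq] at this
        exact absurd this.2 (Fin.castSucc_lt_last i).ne

/-! ### Large `m` (Donner's theorem) -/

/-- monochromatic ordered edges -/
noncomputable def mono (G : SimpleGraph V) {m : ℕ} (b : V → Fin m → ℕ) (f : V → Fin m) :
    Finset (V × V) :=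
  univ.filter (fun q => G.Adj q.1 q.2 ∧ b q.1 (f q.1) = b q.2 (f q.2))

theorem mem_mono (G : SimpleGraph V) {m : ℕ} (b : V → Fin m → ℕ) (f : V → Fin m) (q : V × V) :
    q ∈ mono G b f ↔ G.Adj q.1 q.2 ∧ b q.1 (f q.1) = b q.2 (f q.2) := by
  unfold mono
  rw [Finset.mem_filter]
  simp

/-- ordered edges -/
noncomputable def ed (G : SimpleGraph V) : Finset (V × V) := univ.filter (fun q => G.Adj q.1 q.2)

theorem mem_ed (G : SimpleGraph V) (q : V × V) : q ∈ ed G ↔ G.Adj q.1 q.2 := by
  unfold ed
  rw [Finset.mem_filter]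
  simp

theorem card_fix_two {m : ℕ} (u v : V) (huv : u ≠ v) (x y : Fin m) :
    ((univ : Finset (V → Fin m)).filter (fun f => f u = x ∧ f v = y)).card =
      m ^ (Fintype.card V - 2) := by
  have h1 : (univ : Finset (V → Fin m)).filter (fun f => f u = x ∧ f v = y) =
      Fintype.piFinset (fun w => if w = u then {x} else if w = v then {y} else univ) := by
    ext f
    rw [Finset.mem_filter, Fintype.mem_piFinset]
    constructor
    · rintro ⟨_, h1, h2⟩ w
      split_ifs with h3 h4
      · rw [h3]; simp [h1]
      · rw [h4]; simp [h2]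
      · simp
    · intro h
      refine ⟨Finset.mem_univ _, ?_, ?_⟩
      · have := h u
        simpa using this
      · have := h v
        simpa [huv.symm] using this
  rw [h1, Fintype.card_piFinset]
  rw [← Finset.mul_prod_erase univ _ (Finset.mem_univ u)]
  have hv : v ∈ (univ : Finset V).erase u := by simp [huv.symm]
  rw [← Finset.mul_prod_erase _ _ hv]
  have h2 : ∏ w ∈ ((univ : Finset V).erase u).erase v,
      (if w = u then ({x} : Finset (Fin m)) else if w = v then {y} else univ).card =
      ∏ w ∈ ((univ : Finset V).erase u).erase v, m := by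
    apply Finset.prod_congr rfl
    intro w hw
    rw [Finset.mem_erase, Finset.mem_erase] at hw
    simp [hw.1, hw.2.1]
  rw [h2, Finset.prod_const, Finset.card_erase_of_mem hv,
    Finset.card_erase_of_mem (Finset.mem_univ u), Finset.card_univ]
  simp [huv.symm, Nat.sub_sub]

/-- first order term -/
theorem sum_mono (G : SimpleGraph V) {m : ℕ} (L : V → Finset ℕ) (e : ∀ v, Fin m ≃ L v) :
    ∑ f : V → Fin m, (mono G (fun v x => (e v x : ℕ)) f).card =
      ∑ q ∈ ed G, (L q.1 ∩ L q.2).card * m ^ (Fintype.card V - 2) := by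
  have h1 : ∀ f : V → Fin m, (mono G (fun v x => (e v x : ℕ)) f).card =
      ∑ q ∈ ed G, if (e q.1 (f q.1) : ℕ) = e q.2 (f q.2) then 1 else 0 := by
    intro f
    rw [← Finset.card_filter]
    congr 1
    ext q
    rw [mem_mono, Finset.mem_filter, mem_ed]
  rw [Finset.sum_congr rfl (fun f _ => h1 f), Finset.sum_comm]
  apply Finset.sum_congr rfl
  intro q hq
  rw [mem_ed] at hq
  rw [← Finset.card_filter]
  rw [Finset.card_eq_sum_card_fiberwise (f := fun f => ((e q.1 (f q.1) : L q.1) : ℕ))
    (t := L q.1 ∩ L q.2)]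
  · rw [Finset.sum_const_nat (m := m ^ (Fintype.card V - 2))]
    intro z hz
    rw [Finset.mem_inter] at hz
    rw [← card_fix_two q.1 q.2 hq.ne ((e q.1).symm ⟨z, hz.1⟩) ((e q.2).symm ⟨z, hz.2⟩)]
    congr 1
    ext f
    simp only [Finset.mem_filter, Finset.mem_univ, true_and]
    constructor
    · rintro ⟨h1, h2⟩
      refine ⟨?_, ?_⟩
      · rw [Equiv.eq_symm_apply]
        exact Subtype.ext h2
      · rw [Equiv.eq_symm_apply]
        exact Subtype.ext (h1.symm.trans h2)
    · rintro ⟨h1, h2⟩
      rw [Equiv.eq_symm_apply] at h1 h2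
      have h1' := congrArg Subtype.val h1
      have h2' := congrArg Subtype.val h2
      exact ⟨h1'.trans h2'.symm, h1'⟩
  · intro f hf
    simp only [Finset.coe_filter, Finset.mem_univ, true_and, Set.mem_ofPred_eq] at hf
    rw [Finset.mem_coe, Finset.mem_inter]
    refine ⟨(e q.1 (f q.1)).2, ?_⟩
    show ((e q.1 (f q.1) : L q.1) : ℕ) ∈ L q.2
    rw [hf]
    exact (e q.2 (f q.2)).2

theorem cl_eq_mono (G : SimpleGraph V) {m : ℕ} (L : V → Finset ℕ) (e : ∀ v, Fin m ≃ L v) :
    cl G L = ((univ : Finset (V → Fin m)).filter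
      (fun f => (mono G (fun v x => (e v x : ℕ)) f).card = 0)).card := by
  unfold cl
  symm
  apply Finset.card_bij (fun f _ v => ((e v (f v) : L v) : ℕ))
  · intro f hf
    rw [Finset.mem_filter, Finset.card_eq_zero] at hf
    rw [mem_cs]
    refine ⟨fun v => (e v (f v)).2, fun u v huv h => ?_⟩
    have : (u, v) ∈ mono G (fun v x => (e v x : ℕ)) f := by
      rw [mem_mono]
      exact ⟨huv, h⟩
    rw [hf.2] at this
    simp at this
  · intro f _ g _ hfg
    funext v
    exact (e v).injective (Subtype.ext (congrFun hfg v))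
  · intro g hg
    rw [mem_cs] at hg
    refine ⟨fun v => (e v).symm ⟨g v, hg.1 v⟩, ?_, ?_⟩
    · rw [Finset.mem_filter, Finset.card_eq_zero]
      refine ⟨Finset.mem_univ _, ?_⟩
      rw [Finset.eq_empty_iff_forall_notMem]
      intro q hq
      rw [mem_mono] at hq
      simp only [Equiv.apply_symm_apply] at hq
      exact hg.2 _ _ hq.1 hq.2
    · funext v
      simp

theorem mono_card_ne_one (G : SimpleGraph V) {m : ℕ} (b : V → Fin m → ℕ) (f : V → Fin m) :
    (mono G b f).card ≠ 1 := by
  intro h
  rw [Finset.card_eq_one] at h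
  obtain ⟨q, hq⟩ := h
  have h1 : q ∈ mono G b f := by rw [hq]; simp
  rw [mem_mono] at h1
  have h2 : (q.2, q.1) ∈ mono G b f := by
    rw [mem_mono]
    exact ⟨h1.1.symm, h1.2.symm⟩
  rw [hq, Finset.mem_singleton] at h2
  have h3 : q.2 = q.1 := congrArg Prod.fst h2
  exact h1.1.ne h3.symm

/-- the counting identity -/
theorem identity (G : SimpleGraph V) {m : ℕ} (L : V → Finset ℕ) (e : ∀ v, Fin m ≃ L v) :
    2 * m ^ Fintype.card V +
      ∑ f : V → Fin m, ((mono G (fun v x => (e v x : ℕ)) f).card - 2) =
    2 * cl G L + ∑ q ∈ ed G, (L q.1 ∩ L q.2).card * m ^ (Fintype.card V - 2) := by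
  rw [← sum_mono G L e, cl_eq_mono G L e]
  set μ : (V → Fin m) → ℕ := fun f => (mono G (fun v x => (e v x : ℕ)) f).card with hμ
  have h1 : ∀ f, 2 + (μ f - 2) = 2 * (if μ f = 0 then 1 else 0) + μ f := by
    intro f
    have : μ f ≠ 1 := mono_card_ne_one G _ f
    split_ifs with h
    · omega
    · omega
  have h2 := Finset.sum_congr (rfl : (univ : Finset (V → Fin m)) = univ) (fun f _ => h1 f)
  rw [Finset.sum_add_distrib, Finset.sum_add_distrib, ← Finset.mul_sum, ← Finset.card_filter,
    Finset.sum_const, Finset.card_univ, Fintype.card_fun, Fintype.card_fin, smul_eq_mul] at h2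
  linarith

/-- counting with an additional coincidence -/
theorem card_three {m : ℕ} (u v a b : V) (x : Fin m) (huv : u ≠ v) (hab : a ≠ b)
    (h1 : (a, b) ≠ (u, v)) (h2 : (a, b) ≠ (v, u)) :
    m * ((univ : Finset (V → Fin m)).filter
      (fun f => f u = x ∧ f v = x ∧ f a = f b)).card ≤ m ^ (Fintype.card V - 2) := by
  -- a vertex w among a, b outside {u, v}
  obtain ⟨w, w', hw, hwu, hwv, hww⟩ : ∃ w w', ((w = a ∧ w' = b) ∨ (w = b ∧ w' = a)) ∧ w ≠ u ∧
      w ≠ v ∧ w ≠ w' := by
    by_cases ha : a ≠ u ∧ a ≠ v
    · exact ⟨a, b, Or.inl ⟨rfl, rfl⟩, ha.1, ha.2, hab⟩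
    · refine ⟨b, a, Or.inr ⟨rfl, rfl⟩, ?_, ?_, hab.symm⟩
      · rintro rfl
        apply ha
        refine ⟨hab, ?_⟩
        rintro rfl
        exact h2 rfl
      · rintro rfl
        apply ha
        refine ⟨?_, hab⟩
        rintro rfl
        exact h1 rfl
  rw [← card_fix_two u v huv x x]
  have hm : m * ((univ : Finset (V → Fin m)).filter
      (fun f => f u = x ∧ f v = x ∧ f a = f b)).card =
      ((univ : Finset (Fin m)) ×ˢ ((univ : Finset (V → Fin m)).filter
      (fun f => f u = x ∧ f v = x ∧ f a = f b))).card := by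
    rw [Finset.card_product, Finset.card_univ, Fintype.card_fin]
  rw [hm]
  apply Finset.card_le_card_of_injOn (fun p => Function.update p.2 w p.1)
  · intro p hp
    simp only [Finset.coe_product, Finset.coe_univ, Finset.coe_filter, Finset.mem_univ, true_and,
      Set.mem_prod, Set.mem_univ, Set.mem_ofPred_eq] at hp
    simp only [Finset.coe_filter, Finset.mem_univ, true_and, Set.mem_ofPred_eq]
    rw [Function.update_of_ne hwu.symm, Function.update_of_ne hwv.symm]
    exact ⟨hp.1, hp.2.1⟩
  · intro p hp p' hp' h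
    simp only [Finset.coe_product, Finset.coe_univ, Finset.coe_filter, Finset.mem_univ, true_and,
      Set.mem_prod, Set.mem_univ, Set.mem_ofPred_eq] at hp hp'
    have hrel : ∀ p : Fin m × (V → Fin m), p.2 a = p.2 b → p.2 w = p.2 w' := by
      intro p hp
      rcases hw with ⟨rfl, rfl⟩ | ⟨rfl, rfl⟩
      · exact hp
      · exact hp.symm
    have hoff : ∀ z, z ≠ w → p.2 z = p'.2 z := by
      intro z hz
      have := congrFun h z
      simp only [Function.update_of_ne hz] at this
      exact this
    have hat : p.1 = p'.1 := by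
      have := congrFun h w
      simpa using this
    refine Prod.ext hat ?_
    funext z
    by_cases hz : z = w
    · subst hz
      rw [hrel p hp.2.2, hrel p' hp'.2.2]
      exact hoff w' hww.symm
    · exact hoff z hz

/-- comparison of the second-order terms -/
theorem second_order (G : SimpleGraph V) {m : ℕ} (b b0 : V → Fin m → ℕ) (B : ℕ)
    (hb0 : ∀ u v x y, b0 u x = b0 v y ↔ x = y)
    (hB : ∀ q ∈ ed G, ((univ : Finset (Fin m)).filter (fun x => b q.1 x ≠ b q.2 x)).card ≤ B) :
    m * (∑ f : V → Fin m, ((mono G b0 f).card - 2)) ≤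
      m * (∑ f : V → Fin m, ((mono G b f).card - 2)) +
        (ed G).card * ((ed G).card * ((ed G).card * (B * m ^ (Fintype.card V - 2)))) := by
  set Exc : Finset (V → Fin m) := univ.filter (fun f => 3 ≤ (mono G b0 f).card ∧
    ∃ q ∈ mono G b0 f, b q.1 (f q.1) ≠ b q.2 (f q.2)) with hExc
  have hpt : ∀ f : V → Fin m, (mono G b0 f).card - 2 ≤ ((mono G b f).card - 2) +
      (if f ∈ Exc then (ed G).card else 0) := by
    intro f
    by_cases hf : f ∈ Exc
    · rw [if_pos hf]
      have : (mono G b0 f).card ≤ (ed G).card := by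
        apply Finset.card_le_card
        intro q hq
        rw [mem_mono] at hq
        rw [mem_ed]
        exact hq.1
      omega
    · rw [if_neg hf]
      by_cases h3 : 3 ≤ (mono G b0 f).card
      · have hall : ∀ q ∈ mono G b0 f, b q.1 (f q.1) = b q.2 (f q.2) := by
          intro q hq
          by_contra hne
          exact hf (by rw [hExc, Finset.mem_filter]; exact ⟨Finset.mem_univ _, h3, q, hq, hne⟩)
        have : (mono G b0 f).card ≤ (mono G b f).card := by
          apply Finset.card_le_card
          intro q hq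
          have h := hall q hq
          rw [mem_mono] at hq ⊢
          exact ⟨hq.1, h⟩
        omega
      · omega
  have hsum := Finset.sum_le_sum (fun f (_ : f ∈ (univ : Finset (V → Fin m))) => hpt f)
  rw [Finset.sum_add_distrib, Finset.sum_ite_mem, Finset.univ_inter, Finset.sum_const,
    smul_eq_mul] at hsum
  -- bound Exc
  have hExcCard : m * Exc.card ≤ (ed G).card * ((ed G).card * (B * m ^ (Fintype.card V - 2))) := by
    have hcover : Exc ⊆ (ed G).biUnion (fun q =>
        ((ed G).filter (fun q' => q' ≠ q ∧ q' ≠ (q.2, q.1))).biUnion (fun q' =>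
          ((univ : Finset (Fin m)).filter (fun x => b q.1 x ≠ b q.2 x)).biUnion (fun x =>
            (univ : Finset (V → Fin m)).filter
              (fun f => f q.1 = x ∧ f q.2 = x ∧ f q'.1 = f q'.2)))) := by
      intro f hf
      rw [hExc, Finset.mem_filter] at hf
      obtain ⟨_, h3, q, hq, hne⟩ := hf
      have hq0 := hq
      rw [mem_mono, hb0] at hq
      -- find q'
      obtain ⟨q', hq', hq'1, hq'2⟩ : ∃ q' ∈ mono G b0 f, q' ≠ q ∧ q' ≠ (q.2, q.1) := by
        by_contra hcon
        push Not at hcon
        have hsub : mono G b0 f ⊆ {q, (q.2, q.1)} := by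
          intro q' hq'
          rw [Finset.mem_insert, Finset.mem_singleton]
          by_cases h : q' = q
          · exact Or.inl h
          · exact Or.inr (hcon q' hq' h)
        have := (Finset.card_le_card hsub).trans Finset.card_le_two
        omega
      rw [mem_mono, hb0] at hq'
      simp only [Finset.mem_biUnion, Finset.mem_filter, Finset.mem_univ, true_and, mem_ed]
      refine ⟨q, hq.1, q', ⟨hq'.1, hq'1, hq'2⟩, f q.1, ?_, rfl, hq.2.symm, hq'.2⟩
      rw [← hq.2] at hne
      exact hne
    have h1 : m * Exc.card ≤ m * ∑ q ∈ ed G,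
        ∑ q' ∈ (ed G).filter (fun q' => q' ≠ q ∧ q' ≠ (q.2, q.1)),
          ∑ x ∈ (univ : Finset (Fin m)).filter (fun x => b q.1 x ≠ b q.2 x),
            ((univ : Finset (V → Fin m)).filter
              (fun f => f q.1 = x ∧ f q.2 = x ∧ f q'.1 = f q'.2)).card := by
      apply Nat.mul_le_mul_left
      refine (Finset.card_le_card hcover).trans ?_
      refine Finset.card_biUnion_le.trans (Finset.sum_le_sum fun q _ => ?_)
      refine Finset.card_biUnion_le.trans (Finset.sum_le_sum fun q' _ => ?_)
      exact Finset.card_biUnion_le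
    refine h1.trans ?_
    rw [Finset.mul_sum]
    refine (Finset.sum_le_card_nsmul _ _ ((ed G).card * (B * m ^ (Fintype.card V - 2))) ?_).trans
      (by rw [smul_eq_mul])
    intro q hq
    rw [Finset.mul_sum]
    refine (Finset.sum_le_card_nsmul _ _ (B * m ^ (Fintype.card V - 2)) ?_).trans ?_
    · intro q' hq'
      rw [Finset.mem_filter, mem_ed] at hq'
      rw [Finset.mul_sum]
      refine (Finset.sum_le_card_nsmul _ _ (m ^ (Fintype.card V - 2)) ?_).trans ?_
      · intro x _
        rw [mem_ed] at hq
        apply card_three q.1 q.2 q'.1 q'.2 x hq.ne hq'.1.ne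
        · intro h
          exact hq'.2.1 h
        · intro h
          exact hq'.2.2 h
      · rw [smul_eq_mul]
        exact Nat.mul_le_mul_right _ (hB q hq)
    · rw [smul_eq_mul]
      exact Nat.mul_le_mul_right _ (Finset.card_le_card (Finset.filter_subset _ _))
  calc m * (∑ f : V → Fin m, ((mono G b0 f).card - 2))
      ≤ m * (∑ f : V → Fin m, ((mono G b f).card - 2) + Exc.card * (ed G).card) :=
        Nat.mul_le_mul_left _ hsum
    _ = m * (∑ f : V → Fin m, ((mono G b f).card - 2)) + (ed G).card * (m * Exc.card) := by ring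
    _ ≤ _ := Nat.add_le_add_left (Nat.mul_le_mul_left _ hExcCard) _

omit [Fintype V] in
/-- lists along a walk -/
theorem walk_bound (G : SimpleGraph V) (L : V → Finset ℕ) (D : ℕ)
    (hD : ∀ u v, G.Adj u v → (L u \ L v).card ≤ D) {u v : V} (w : G.Walk u v) :
    (L u \ L v).card ≤ w.length * D := by
  induction w with
  | nil => simp
  | @cons u v w h p ih =>
    have h1 : L u \ L w ⊆ (L u \ L v) ∪ (L v \ L w) := by
      intro c hc
      rw [Finset.mem_sdiff] at hc
      rw [Finset.mem_union, Finset.mem_sdiff, Finset.mem_sdiff]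
      by_cases hv : c ∈ L v
      · exact Or.inr ⟨hv, hc.2⟩
      · exact Or.inl ⟨hc.1, hv⟩
    have h2 := (Finset.card_le_card h1).trans (Finset.card_union_le _ _)
    have h3 := hD u v h
    rw [SimpleGraph.Walk.length_cons]
    nlinarith

/-- **Donner's theorem.** -/
theorem donner (G : SimpleGraph V) : ∃ k0 : ℕ, ∀ m : ℕ, k0 ≤ m → ∀ L : V → Finset ℕ,
    (∀ v, (L v).card = m) → numCol G m ≤ cl G L := by
  -- roots and walks
  let r : V → V := fun v => (G.connectedComponentMk v).out
  have hr : ∀ v, G.Reachable (r v) v := by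
    intro v
    rw [← SimpleGraph.ConnectedComponent.eq]
    exact (G.connectedComponentMk v).out_eq
  let ℓ : V → ℕ := fun v => (hr v).some.length
  let Λ : ℕ := ∑ v, ℓ v
  refine ⟨2 * Λ * (ed G).card ^ 3 + 1, ?_⟩
  intro m hm L hL
  have hmpos : 0 < m := by omega
  set D : ℕ := ∑ q ∈ ed G, (L q.1 \ L q.2).card with hD
  have hDadj : ∀ u v, G.Adj u v → (L u \ L v).card ≤ D := by
    intro u v huv
    exact Finset.single_le_sum (f := fun q : V × V => (L q.1 \ L q.2).card)
      (fun q _ => Nat.zero_le _) (show (u, v) ∈ ed G by rw [mem_ed]; exact huv)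
  have hroot : ∀ v, (L (r v) \ L v).card ≤ Λ * D := by
    intro v
    refine (walk_bound G L D hDadj (hr v).some).trans (Nat.mul_le_mul_right _ ?_)
    exact Finset.single_le_sum (f := ℓ) (fun q _ => Nat.zero_le _) (Finset.mem_univ v)
  -- base bijections
  let e0 : ∀ v, Fin m ≃ L v := fun v => (Finset.equivFinOfCardEq (hL v)).symm
  have hex : ∀ v, ∃ g : Fin m ≃ L v, ∀ x, (e0 (r v) x : ℕ) ∈ L v → (g x : ℕ) = e0 (r v) x := by
    intro v
    obtain ⟨g, hg⟩ := Finset.exists_equiv_extend_of_card_eq (α := Fin m) (t := L v)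
      (by rw [Fintype.card_fin, hL v])
      (s := univ.filter (fun x => (e0 (r v) x : ℕ) ∈ L v)) (f := fun x => (e0 (r v) x : ℕ))
      (by
        intro c hc
        rw [Finset.mem_image] at hc
        obtain ⟨x, hx, rfl⟩ := hc
        rw [Finset.mem_filter] at hx
        exact hx.2)
      (by
        intro x _ y _ hxy
        exact (e0 (r v)).injective (Subtype.ext hxy))
    exact ⟨g, fun x hx => hg x (by rw [Finset.mem_filter]; exact ⟨Finset.mem_univ _, hx⟩)⟩
  choose e he using hex
  -- bad colours
  have hbadr : ∀ v, ((univ : Finset (Fin m)).filter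
      (fun x => (e0 (r v) x : ℕ) ∉ L v)).card ≤ Λ * D := by
    intro v
    refine le_trans ?_ (hroot v)
    apply Finset.card_le_card_of_injOn (fun x => ((e0 (r v) x : L (r v)) : ℕ))
    · intro x hx
      simp only [Finset.coe_filter, Finset.mem_univ, true_and, Set.mem_ofPred_eq] at hx
      rw [Finset.mem_coe, Finset.mem_sdiff]
      exact ⟨(e0 (r v) x).2, hx⟩
    · intro x _ y _ hxy
      exact (e0 (r v)).injective (Subtype.ext hxy)
  have hB : ∀ q ∈ ed G, ((univ : Finset (Fin m)).filter
      (fun x => (e q.1 x : ℕ) ≠ e q.2 x)).card ≤ 2 * (Λ * D) := by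
    intro q hq
    rw [mem_ed] at hq
    have hrr : r q.1 = r q.2 := by
      have : G.connectedComponentMk q.1 = G.connectedComponentMk q.2 :=
        SimpleGraph.ConnectedComponent.sound hq.reachable
      show (G.connectedComponentMk q.1).out = (G.connectedComponentMk q.2).out
      rw [this]
    have hsub : (univ : Finset (Fin m)).filter (fun x => (e q.1 x : ℕ) ≠ e q.2 x) ⊆
        (univ.filter (fun x => (e0 (r q.1) x : ℕ) ∉ L q.1)) ∪
        (univ.filter (fun x => (e0 (r q.2) x : ℕ) ∉ L q.2)) := by
      intro x hx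
      rw [Finset.mem_filter] at hx
      rw [Finset.mem_union, Finset.mem_filter, Finset.mem_filter]
      by_contra hcon
      push Not at hcon
      have h1 := he q.1 x (hcon.1 (Finset.mem_univ _))
      have h2 := he q.2 x (hcon.2 (Finset.mem_univ _))
      apply hx.2
      rw [h1, h2, hrr]
    have h1 := (Finset.card_le_card hsub).trans (Finset.card_union_le _ _)
    have h2 := hbadr q.1
    have h3 := hbadr q.2
    omega
  -- constant version
  let ec : ∀ _ : V, Fin m ≃ (range m : Finset ℕ) := fun _ =>
    (Finset.equivFinOfCardEq (card_range m)).symm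
  have hb0 : ∀ (u v : V) (x y : Fin m), ((ec u x : (range m : Finset ℕ)) : ℕ) = (ec v y : ℕ) ↔
      x = y := by
    intro u v x y
    constructor
    · intro h
      exact (ec u).injective (Subtype.ext h)
    · rintro rfl
      rfl
  have hid := identity G L e
  have hid0 := identity G (fun _ => range m) ec
  have hso := second_order G (fun v x => ((e v x : L v) : ℕ))
    (fun v x => ((ec v x : (range m : Finset ℕ)) : ℕ)) (2 * (Λ * D)) hb0 hB
  rw [cl_const, card_range] at hid0
  simp only [Finset.inter_self, card_range] at hid0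
  set R := ∑ f : V → Fin m, ((mono G (fun v x => ((e v x : L v) : ℕ)) f).card - 2) with hR
  set R0 := ∑ f : V → Fin m, ((mono G (fun v x => ((ec v x : (range m : Finset ℕ)) : ℕ)) f).card - 2)
    with hR0
  set E := (ed G).card with hE
  set N := m ^ (Fintype.card V - 2) with hN
  -- first order: sum of m = sum of inter + sum of sdiff
  have hfirst : ∑ q ∈ ed G, m * N = ∑ q ∈ ed G, (L q.1 ∩ L q.2).card * N + D * N := by
    rw [hD, Finset.sum_mul, ← Finset.sum_add_distrib]
    apply Finset.sum_congr rfl
    intro q _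
    rw [← Nat.add_mul, Nat.add_comm, Finset.card_sdiff_add_card_inter, hL]
  -- conclusion
  have hk : (2 * Λ * E ^ 3 + 1) ≤ m := hm
  have hmain : m * (2 * numCol G m) ≤ m * (2 * cl G L) := by
    have h1 : m * R0 ≤ m * R + E * (E * (E * (2 * (Λ * D) * N))) := hso
    have h2 : m * (2 * m ^ Fintype.card V + R) =
        m * (2 * cl G L + ∑ q ∈ ed G, (L q.1 ∩ L q.2).card * N) := by rw [hid]
    have h3 : m * (2 * m ^ Fintype.card V + R0) =
        m * (2 * numCol G m + (∑ q ∈ ed G, (L q.1 ∩ L q.2).card * N + D * N)) := by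
      rw [hid0, hfirst]
    have h4 : E * (E * (E * (2 * (Λ * D) * N))) ≤ m * (D * N) := by
      calc E * (E * (E * (2 * (Λ * D) * N))) = (2 * Λ * E ^ 3) * (D * N) := by ring
        _ ≤ m * (D * N) := Nat.mul_le_mul_right _ (by omega)
    nlinarith
  have h5 := Nat.le_of_mul_le_mul_left hmain hmpos
  omega

/-! ### Assembly -/

theorem cl_attained_le (G : SimpleGraph V) (j p : ℕ) (hj : 1 ≤ j) (v0 : ℕ)
    (L : V → Finset ℕ) (LU : Fin p → Finset ℕ) (hLU : ∀ i, p + j ≤ (LU i).card)
    {ι : Type*} (𝒳 : Finset ι) (I : ι → Finset ℕ)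
    (hbase : ∀ S : Finset ℕ, S.card = p → (∀ X ∈ 𝒳, j ≤ (I X \ S).card) →
      v0 ≤ cl G (fun v => L v \ S)) :
    (v0 : ℝ) * ((p + j).descFactorial p : ℕ) *
      (1 - ∑ X ∈ 𝒳, (j : ℝ) * ((p + j - (I X).card : ℕ) : ℝ) / (p + j : ℕ)) ≤
      (cl (join G (⊤ : SimpleGraph (Fin p))) (Sum.elim L LU) : ℝ) := by
  have h := cnt_lower G L j hj 𝒳 I v0 p hbase (List.ofFn LU) ∅ (by simp) (by
    intro A hA
    rw [List.mem_ofFn] at hA
    obtain ⟨i, rfl⟩ := hA
    exact hLU i)
  rw [← cl_join G L p LU ∅] at h
  simp only [Finset.sdiff_empty, List.length_ofFn] at h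
  exact h

/-- plain lower bound -/
theorem join_plain (G : SimpleGraph V) (j p : ℕ) (hj : 1 ≤ j) (v0 : ℕ)
    (L : V → Finset ℕ) (LU : Fin p → Finset ℕ) (hLU : ∀ i, p + j ≤ (LU i).card)
    (hbase : ∀ S : Finset ℕ, S.card = p → v0 ≤ cl G (fun v => L v \ S)) :
    (p + j).descFactorial p * v0 ≤
      cl (join G (⊤ : SimpleGraph (Fin p))) (Sum.elim L LU) := by
  have h := cl_attained_le G j p hj v0 L LU hLU (∅ : Finset Unit) (fun _ => ∅)
    (fun S hS _ => hbase S hS)
  simp only [Finset.sum_empty, sub_zero, mul_one] at h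
  have h' : v0 * (p + j).descFactorial p ≤
      cl (join G (⊤ : SimpleGraph (Fin p))) (Sum.elim L LU) := by exact_mod_cast h
  rw [Nat.mul_comm]
  exact h'

/-- sub-lists of prescribed size -/
theorem numCol_le_of_large (G : SimpleGraph V) (k0 j : ℕ)
    (hk0 : ∀ m : ℕ, k0 ≤ m → ∀ L : V → Finset ℕ, (∀ v, (L v).card = m) → numCol G m ≤ cl G L)
    (hj : k0 ≤ j) (L : V → Finset ℕ) (hL : ∀ v, j ≤ (L v).card) : numCol G j ≤ cl G L := by
  have hex : ∀ v, ∃ T ⊆ L v, T.card = j := fun v => Finset.exists_subset_card_eq (hL v)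
  choose T hT hTc using hex
  exact (hk0 j hj T hTc).trans (cl_mono G T L hT)

theorem join_large (G : SimpleGraph V) (k0 j p : ℕ) (hj1 : 1 ≤ j)
    (hk0 : ∀ m : ℕ, k0 ≤ m → ∀ L : V → Finset ℕ, (∀ v, (L v).card = m) → numCol G m ≤ cl G L)
    (hj : k0 ≤ j) (L : V → Finset ℕ) (LU : Fin p → Finset ℕ)
    (hL : ∀ v, (L v).card = p + j) (hLU : ∀ i, (LU i).card = p + j) :
    numCol (join G (⊤ : SimpleGraph (Fin p))) (p + j) ≤
      cl (join G (⊤ : SimpleGraph (Fin p))) (Sum.elim L LU) := by
  rw [numCol_join]
  apply join_plain G j p hj1 _ L LU (fun i => (hLU i).ge)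
  intro S hS
  apply numCol_le_of_large G k0 j hk0 hj
  intro v
  have h1 := Finset.le_card_sdiff S (L v)
  have := hL v
  omega

/-- the bound on `p` for given `j` -/
noncomputable def pb (G : SimpleGraph V) (j : ℕ) : ℕ :=
  (numCol G j + 1) * (2 ^ Fintype.card V * (j * (Fintype.card V *
    (j + 2 * (Fintype.card V * (j + 1))))))

theorem join_small (G : SimpleGraph V) (j p : ℕ) (hj1 : 1 ≤ j) (hcol : G.Colorable j)
    (hp : pb G j ≤ p) (L : V → Finset ℕ) (LU : Fin p → Finset ℕ)
    (hL : ∀ v, (L v).card = p + j) (hLU : ∀ i, (LU i).card = p + j) :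
    numCol (join G (⊤ : SimpleGraph (Fin p))) (p + j) ≤
      cl (join G (⊤ : SimpleGraph (Fin p))) (Sum.elim L LU) := by
  by_cases hne : ∃ u v : V, L u ≠ L v
  · set A := Fintype.card V * (j + 1) with hA
    set Δ0 := j + 2 * A with hΔ0
    set n := Fintype.card V with hn
    let 𝒳 : Finset (Finset V) := univ.filter (fun X => X.Nonempty ∧
      ∀ v ∈ X, ∀ w ∈ X, (L v \ L w).card < Δ0)
    let I : Finset V → Finset ℕ := fun X => if h : X.Nonempty then X.inf' h L else ∅
    have hI : ∀ X : Finset V, X.Nonempty → ∀ c, c ∈ I X ↔ ∀ v ∈ X, c ∈ L v := by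
      intro X hX c
      simp only [I, hX, dif_pos]
      rw [← Finset.singleton_subset_iff]
      constructor
      · intro h v hv
        have := h.trans (Finset.inf'_le L hv)
        simpa using this
      · intro h
        apply Finset.le_inf'
        intro v hv
        simpa using h v hv
    have h := cl_attained_le G j p hj1 (numCol G j + 1) L LU (fun i => (hLU i).ge) 𝒳 I (by
      intro S hS hgood
      apply final_count G L j p A (le_of_eq hA.symm) hcol hL S hS hne
      intro X hX hclose
      have h1 := hgood X (by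
        rw [Finset.mem_filter]
        exact ⟨Finset.mem_univ _, hX, hclose⟩)
      obtain ⟨T, hT, hTc⟩ := Finset.exists_subset_card_eq h1
      refine ⟨T, hTc, ?_, ?_⟩
      · rw [Finset.disjoint_left]
        intro c hc
        exact (Finset.mem_sdiff.1 (hT hc)).2
      · intro v hv c hc
        exact (hI X hX c).1 (Finset.mem_sdiff.1 (hT hc)).1 v hv)
    -- bound the sum
    have hgap : ∀ X ∈ 𝒳, p + j - (I X).card ≤ n * Δ0 := by
      intro X hX
      rw [Finset.mem_filter] at hX
      obtain ⟨_, hXne, hclose⟩ := hX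
      obtain ⟨v, hv⟩ := hXne
      have hsub : L v ⊆ I X ∪ X.biUnion (fun w => L v \ L w) := by
        intro c hc
        rw [Finset.mem_union, Finset.mem_biUnion]
        by_cases hcI : c ∈ I X
        · exact Or.inl hcI
        · rw [hI X ⟨v, hv⟩] at hcI
          push Not at hcI
          obtain ⟨w, hw, hcw⟩ := hcI
          exact Or.inr ⟨w, hw, Finset.mem_sdiff.2 ⟨hc, hcw⟩⟩
      have h1 := (Finset.card_le_card hsub).trans (Finset.card_union_le _ _)
      have h2 : (X.biUnion (fun w => L v \ L w)).card ≤ n * Δ0 := by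
        refine Finset.card_biUnion_le.trans ?_
        refine (Finset.sum_le_card_nsmul _ _ Δ0 (fun w hw => (hclose v hv w hw).le)).trans ?_
        rw [smul_eq_mul]
        exact Nat.mul_le_mul_right _ (Finset.card_le_univ X)
      have h3 := hL v
      omega
    have hsum : ∑ X ∈ 𝒳, (j : ℝ) * ((p + j - (I X).card : ℕ) : ℝ) / (p + j : ℕ) ≤
        ((2 ^ n * (j * (n * Δ0)) : ℕ) : ℝ) / (p + j : ℕ) := by
      rw [← Finset.sum_div]
      apply div_le_div_of_nonneg_right _ (Nat.cast_nonneg _)
      have h1 : ∑ X ∈ 𝒳, (j : ℝ) * ((p + j - (I X).card : ℕ) : ℝ) ≤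
          ∑ X ∈ 𝒳, ((j * (n * Δ0) : ℕ) : ℝ) := by
        apply Finset.sum_le_sum
        intro X hX
        have := hgap X hX
        have h2 : j * (p + j - (I X).card) ≤ j * (n * Δ0) := Nat.mul_le_mul_left _ this
        exact_mod_cast h2
      refine h1.trans ?_
      rw [Finset.sum_const, nsmul_eq_mul]
      have h2 : 𝒳.card ≤ 2 ^ n := by
        have : 𝒳.card ≤ Fintype.card (Finset V) := Finset.card_le_univ _
        rwa [Fintype.card_finset] at this
      have h3 : 𝒳.card * (j * (n * Δ0)) ≤ 2 ^ n * (j * (n * Δ0)) := Nat.mul_le_mul_right _ h2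
      exact_mod_cast h3
    rw [numCol_join]
    set K := 2 ^ n * (j * (n * Δ0)) with hK
    have hpK : (numCol G j + 1) * K ≤ p + j := by
      have : pb G j = (numCol G j + 1) * K := rfl
      omega
    have hpos : (0 : ℝ) < ((p + j : ℕ) : ℝ) := by exact_mod_cast (by omega : 0 < p + j)
    have hpKR : ((numCol G j : ℝ) + 1) * K ≤ ((p + j : ℕ) : ℝ) := by exact_mod_cast hpK
    have hfac : (numCol G j : ℝ) ≤ ((numCol G j : ℝ) + 1) * (1 - (K : ℝ) / ((p + j : ℕ) : ℝ)) := by
      have h1 : ((numCol G j : ℝ) + 1) * ((K : ℝ) / ((p + j : ℕ) : ℝ)) ≤ 1 := by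
        rw [← mul_div_assoc, div_le_one hpos]
        exact hpKR
      nlinarith
    have hfinal : ((p + j).descFactorial p : ℝ) * (numCol G j : ℝ) ≤
        (cl (join G (⊤ : SimpleGraph (Fin p))) (Sum.elim L LU) : ℝ) := by
      refine le_trans ?_ h
      push_cast
      have hd : (0 : ℝ) ≤ ((p + j).descFactorial p : ℝ) := Nat.cast_nonneg _
      calc ((p + j).descFactorial p : ℝ) * (numCol G j : ℝ)
          ≤ ((p + j).descFactorial p : ℝ) *
            (((numCol G j : ℝ) + 1) * (1 - (K : ℝ) / ((p + j : ℕ) : ℝ))) :=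
            mul_le_mul_of_nonneg_left hfac hd
        _ = ((numCol G j : ℝ) + 1) * ((p + j).descFactorial p : ℝ) *
            (1 - (K : ℝ) / ((p + j : ℕ) : ℝ)) := by ring
        _ ≤ _ := by
            apply mul_le_mul_of_nonneg_left _ (by positivity)
            have := hsum
            push_cast at this ⊢
            linarith
    exact_mod_cast hfinal
  · push Not at hne
    rw [numCol_join]
    apply join_plain G j p hj1 _ L LU (fun i => (hLU i).ge)
    intro S hS
    by_cases hV : Nonempty V
    · obtain ⟨v⟩ := hV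
      have heq : (fun w => L w \ S) = fun _ => L v \ S := by
        funext w
        rw [hne w v]
      rw [heq]
      have h1 := Finset.le_card_sdiff S (L v)
      have h2 := hL v
      obtain ⟨T, hT, hTc⟩ := Finset.exists_subset_card_eq (show j ≤ (L v \ S).card by omega)
      rw [← hTc, ← cl_const]
      exact cl_mono G _ _ (fun _ => hT)
    · rw [not_nonempty_iff] at hV
      have h1 : numCol G j ≤ 1 := by
        rw [numCol_eq]
        exact Finset.card_le_one_of_subsingleton _
      have h2 : 1 ≤ cl G (fun v => L v \ S) := by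
        unfold cl
        rw [Nat.one_le_iff_ne_zero, Finset.card_ne_zero]
        exact ⟨fun v => isEmptyElim v, by
          rw [mem_cs]
          exact ⟨fun v => isEmptyElim v, fun v => isEmptyElim v⟩⟩
      omega

omit [Fintype V] in
/-- colourings of the join give colourings of `G` -/
theorem colorable_of_join [Nonempty V] (G : SimpleGraph V) (p m : ℕ)
    (h : (join G (⊤ : SimpleGraph (Fin p))).Colorable m) :
    ∃ j, 1 ≤ j ∧ m = p + j ∧ G.Colorable j := by
  obtain ⟨C⟩ := h
  let B : Finset (Fin m) := univ.image (fun i : Fin p => C (Sum.inr i))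
  have hBcard : B.card = p := by
    rw [Finset.card_image_of_injective, Finset.card_univ, Fintype.card_fin]
    intro i k hik
    by_contra hne
    exact C.valid (show (join G (⊤ : SimpleGraph (Fin p))).Adj (Sum.inr i) (Sum.inr k) from hne) hik
  have hout : ∀ v : V, C (Sum.inl v) ∈ Bᶜ := by
    intro v
    rw [Finset.mem_compl, Finset.mem_image]
    rintro ⟨i, _, hi⟩
    exact C.valid (show (join G (⊤ : SimpleGraph (Fin p))).Adj (Sum.inr i) (Sum.inl v) from trivial)
      hi
  have hcompl : (Bᶜ).card = m - p := by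
    rw [Finset.card_compl, Fintype.card_fin, hBcard]
  have hpos : 0 < (Bᶜ).card := Finset.card_pos.2 ⟨_, hout (Classical.arbitrary V)⟩
  refine ⟨m - p, by omega, by omega, ?_⟩
  have e : (Bᶜ : Finset (Fin m)) ≃ Fin (m - p) := Finset.equivFinOfCardEq hcompl
  refine ⟨SimpleGraph.Coloring.mk (fun v => e ⟨C (Sum.inl v), hout v⟩) ?_⟩
  intro u v huv h
  have h1 := e.injective h
  have h2 : C (Sum.inl u) = C (Sum.inl v) := congrArg Subtype.val h1
  exact C.valid (show (join G (⊤ : SimpleGraph (Fin p))).Adj (Sum.inl u) (Sum.inl v) from huv) h2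

end

theorem listFn_le {V : Type*} [Fintype V] (G : SimpleGraph V) (m : ℕ) :
    listFn G m ≤ numCol G m := by
  apply Nat.sInf_le
  refine ⟨fun _ => range m, fun _ => card_range m, ?_⟩
  rw [numListCol_eq, cl_const, card_range]

theorem enum_iff {V : Type*} [Fintype V] (G : SimpleGraph V) (m : ℕ)
    (h : ∀ L : V → Finset ℕ, (∀ v, (L v).card = m) → numCol G m ≤ numListCol G L) :
    listFn G m = numCol G m := by
  apply le_antisymm (listFn_le G m)
  apply le_csInf
  · exact ⟨_, fun _ => range m, fun _ => card_range m, rfl⟩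
  · rintro N ⟨L, hL, rfl⟩
    exact h L hL

/-- **Q1 holds.**  For every nonempty finite graph `G` there is `p₀ ≥ 1` such that the join
`G ∨ K_p` is enumeratively chromatic-choosable for every `p ≥ p₀`. -/
theorem result (V : Type*) [Fintype V] [Nonempty V] (G : SimpleGraph V) :
    ∃ p₀ : ℕ, 1 ≤ p₀ ∧ ∀ p : ℕ, p₀ ≤ p → EnumChoosable (join G (⊤ : SimpleGraph (Fin p))) := by
  classical
  obtain ⟨k0, hk0⟩ := donner G
  refine ⟨1 + ∑ j ∈ range k0, pb G j, by omega, ?_⟩
  intro p hp m hm
  rw [SimpleGraph.chromaticNumber_le_iff_colorable] at hm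
  obtain ⟨j, hj1, rfl, hcol⟩ := colorable_of_join G p m hm
  apply enum_iff
  intro L hL
  rw [numListCol_eq]
  have hLeq : L = Sum.elim (fun v => L (Sum.inl v)) (fun i => L (Sum.inr i)) := by
    funext x
    rcases x with v | i <;> rfl
  rw [hLeq]
  by_cases hj : k0 ≤ j
  · exact join_large G k0 j p hj1 hk0 hj _ _ (fun v => hL _) (fun i => hL _)
  · push Not at hj
    have h1 : pb G j ≤ ∑ j ∈ range k0, pb G j :=
      Finset.single_le_sum (f := fun j => pb G j) (fun _ _ => Nat.zero_le _)
        (Finset.mem_range.2 hj)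
    exact join_small G j p hj1 hcol (by omega) _ _ (fun v => hL _) (fun i => hL _)

end Pool.Agent.Results.MP_e82249_co.JoinEnum
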